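import Pool.Agent.OMF.Stmts

/-!
# Squad OMF, row NUM: the numbers
-/

set_option autoImplicit false

namespace Pool.Agent.OMF.H88

open Pool.Agent.OMF

/-- cancellation of a positive factor, strict -/
theorem lt_of_mul {a b c : ℕ} (h : a * c < b * c) : a < b :=
  Nat.lt_of_mul_lt_mul_right h

theorem numRow : NumStmt := by
  intro n m T D hD hD0 hmn hT hmain
  have h3m : 3 * m = n + D := by omega
  have hDn : D ≤ 2 * n := by omega
  have hn0 : 0 < n := by omega
  -- D is large
  have hDbig : 13000000 < D := by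
    by_contra hc
    have hc' : D ≤ 13000000 := not_lt.1 hc
    have h1 : D ^ 2 ≤ (2 * n) ^ 2 := Nat.pow_le_pow_left hDn 2
    have h2 : 3 ^ 2 ≤ T ^ 2 := Nat.pow_le_pow_left hT 2
    have h3 : D ^ 3 ≤ 13000000 ^ 3 := Nat.pow_le_pow_left hc' 3
    have h4 : D ^ 5 = D ^ 3 * D ^ 2 := by ring
    have h5 : D ^ 5 ≤ 13000000 ^ 3 * (2 * n) ^ 2 := by
      rw [h4]; exact Nat.mul_le_mul h3 h1
    have h6 : n ^ 2 * 3 ^ 2 ≤ n ^ 2 * T ^ 2 := Nat.mul_le_mul_left _ h2
    have h7 : 13000000 ^ 3 * (2 * n) ^ 2 ≤ 10 ^ 21 * (n ^ 2 * 3 ^ 2) := by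
      have : 13000000 ^ 3 * (2 * n) ^ 2 = (13000000 ^ 3 * 4) * n ^ 2 := by ring
      rw [this]
      have h8 : 10 ^ 21 * (n ^ 2 * 3 ^ 2) = (10 ^ 21 * 9) * n ^ 2 := by ring
      rw [h8]
      exact Nat.mul_le_mul_right _ (by norm_num)
    have h9 : 10 ^ 21 * (n ^ 2 * 3 ^ 2) ≤ 10 ^ 21 * (n ^ 2 * T ^ 2) := Nat.mul_le_mul_left _ h6
    omega
  -- the number k
  set q : ℕ := 72900 * n * n / D with hq
  set r : ℕ := Nat.sqrt q with hr
  have hrq : r * r ≤ q := Nat.sqrt_le q
  have hqr : q < (r + 1) * (r + 1) := Nat.lt_succ_sqrt q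
  have hqD : q * D ≤ 72900 * n * n := Nat.div_mul_le_self _ _
  have hnn : 72900 * n * n = 72900 * (n * n) := by ring
  have hqD' : 72900 * n * n < (q + 1) * D := by
    have h1 := Nat.div_add_mod (72900 * n * n) D
    have h2 := Nat.mod_lt (72900 * n * n) hD0
    rw [← hq] at h1
    have h3 : (q + 1) * D = D * q + D := by ring
    rw [h3]
    omega
  have hnle : n ≤ n * n := Nat.le_mul_self n
  have hr1 : 1 ≤ r := by
    by_contra hc
    have hr0 : r = 0 := by omega
    rw [hr0] at hqr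
    have hq0 : q = 0 := by omega
    rw [hq0, hnn] at hqD'
    omega
  obtain ⟨k, hk⟩ : ∃ k, k = r + 1 := ⟨_, rfl⟩
  -- (1) and (2)
  have e1 : 72900 * (n * n) < (k * k) * D := by
    have h1 : (q + 1) * D ≤ (k * k) * D := by
      apply Nat.mul_le_mul_right
      rw [hk]
      exact hqr
    rw [← hnn]
    exact lt_of_lt_of_le hqD' h1
  have e2 : (k * k) * D ≤ 291600 * (n * n) := by
    have h1 : k ≤ 2 * r := by omega
    have h2 : k * k ≤ (2 * r) * (2 * r) := Nat.mul_le_mul h1 h1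
    have h4 : (2 * r) * (2 * r) = 4 * (r * r) := by ring
    have h3 : (k * k) * D ≤ (4 * q) * D := by
      apply Nat.mul_le_mul_right
      omega
    have h5 : (4 * q) * D = 4 * (q * D) := by ring
    omega
  have hkpos : 0 < k := by omega
  have hkk : 0 < k * k := Nat.mul_pos hkpos hkpos
  -- sizes
  have f1 : 36450 * n < k * k := by
    have h1 : (36450 * n) * D < (k * k) * D := by
      have h2 : (36450 * n) * D ≤ (36450 * n) * (2 * n) := Nat.mul_le_mul_left _ hDn
      have h3 : (36450 * n) * (2 * n) = 72900 * (n * n) := by ring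
      omega
    exact lt_of_mul h1
  have f2 : 10 ≤ k := by
    by_contra hc
    have h1 : k ≤ 9 := by omega
    have h2 : k * k ≤ 9 * 9 := Nat.mul_le_mul h1 h1
    omega
  have f3 : 4 * k ≤ n := by
    have h1 : (4 * k) * (4 * k) * D ≤ (n * n) * D := by
      have h2 : (4 * k) * (4 * k) * D = 16 * (k * k * D) := by ring
      have h3 : (n * n) * 13000000 ≤ (n * n) * D := Nat.mul_le_mul_left _ hDbig.le
      omega
    have h2 : (4 * k) * (4 * k) ≤ n * n := Nat.le_of_mul_le_mul_right h1 hD0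
    exact Nat.mul_self_le_mul_self_iff.1 h2
  have f4 : 56100000 * (k * T) ≤ D * D := by
    have h1 : (k * T) * (k * T) * (10 ^ 21 * D) ≤ 291600 * D ^ 5 := by
      have h2 : (k * T) * (k * T) * (10 ^ 21 * D) = 10 ^ 21 * (T ^ 2 * ((k * k) * D)) := by ring
      rw [h2]
      have h3 : T ^ 2 * ((k * k) * D) ≤ T ^ 2 * (291600 * (n * n)) := Nat.mul_le_mul_left _ e2
      have h4 : 10 ^ 21 * (T ^ 2 * (291600 * (n * n))) = 291600 * (10 ^ 21 * (n ^ 2 * T ^ 2)) := by
        ring
      have h5 : 10 ^ 21 * (T ^ 2 * ((k * k) * D)) ≤ 10 ^ 21 * (T ^ 2 * (291600 * (n * n))) :=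
        Nat.mul_le_mul_left _ h3
      rw [h4] at h5
      have h6 : 291600 * (10 ^ 21 * (n ^ 2 * T ^ 2)) ≤ 291600 * D ^ 5 :=
        Nat.mul_le_mul_left _ hmain.le
      exact h5.trans h6
    have h2 : 10 ^ 21 * ((k * T) * (k * T)) ≤ 291600 * D ^ 4 := by
      have h3 : (10 ^ 21 * ((k * T) * (k * T))) * D ≤ (291600 * D ^ 4) * D := by
        have h4 : (10 ^ 21 * ((k * T) * (k * T))) * D = (k * T) * (k * T) * (10 ^ 21 * D) := by
          ring
        have h5 : (291600 * D ^ 4) * D = 291600 * D ^ 5 := by ring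
        rw [h4, h5]
        exact h1
      exact Nat.le_of_mul_le_mul_right h3 hD0
    apply Nat.mul_self_le_mul_self_iff.1
    have h3 : (56100000 * (k * T)) * (56100000 * (k * T)) =
        3147210000000000 * ((k * T) * (k * T)) := by ring
    have h4 : D * D * (D * D) = D ^ 4 := by ring
    rw [h3, h4]
    omega
  have f5 : 170000 * (330 * k * T) ≤ D * D := by
    have h1 : 170000 * (330 * k * T) = 56100000 * (k * T) := by ring
    rw [h1]
    exact f4
  refine ⟨k, f2, by omega, by omega, ?_⟩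
  intro E mU w hE hmU hmw
  have g1 : 4050 * E < D := by
    have h1 : (4050 * E) * (k * k) < D * (k * k) := by
      have h2 : (4050 * E) * (k * k) = 4050 * (E * (k * k)) := by ring
      have h3 : D * (k * k) = (k * k) * D := by ring
      omega
    exact lt_of_mul h1
  have g2 : 24300 * mU < 8100 * n + D := by
    have h1 : (24300 * mU) * (k * k) < (8100 * n + D) * (k * k) := by
      have h2 : (24300 * mU) * (k * k) = 8100 * (3 * mU * k ^ 2) := by ring
      have h3 : (8100 * n + D) * (k * k) = 8100 * (n * k ^ 2) + (k * k) * D := by ring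
      have h4 : 8100 * (n * k ^ 2 + 9 * n ^ 2) = 8100 * (n * k ^ 2) + 72900 * (n * n) := by ring
      omega
    exact lt_of_mul h1
  have g3 : 8099 * D < 24300 * w := by omega
  obtain ⟨μ, hμ⟩ : ∃ μ, μ = D / 4000 := ⟨_, rfl⟩
  have m1 : 4000 * μ ≤ D := by omega
  have m2 : D < 4000 * μ + 4000 := by omega
  have m3 : 3250 ≤ μ := by omega
  have m4 : D ≤ 4002 * μ := by omega
  have m5 : D * D ≤ 4002 * μ * D := Nat.mul_le_mul_right _ m4
  have m6 : 4002 * μ * D = 4002 * (μ * D) := by ring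
  refine ⟨μ, by omega, ?_, ?_, ?_⟩
  · by_contra hc
    have hc' : μ * w ≤ 330 * k * T + μ * E := not_lt.1 hc
    have h1 : 170000 * (μ * w) ≤ 4002 * (μ * D) + 170000 * (μ * E) := by omega
    have h2 : μ * (170000 * w) ≤ μ * (4002 * D + 170000 * E) := by
      have h3 : μ * (170000 * w) = 170000 * (μ * w) := by ring
      have h4 : μ * (4002 * D + 170000 * E) = 4002 * (μ * D) + 170000 * (μ * E) := by ring
      omega
    have h3 : 170000 * w ≤ 4002 * D + 170000 * E :=
      Nat.le_of_mul_le_mul_left h2 (by omega)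
    omega
  · have h1 : 170000 * (330 * k * T) ≤ 4002 * (μ * D) := by omega
    have h2 : 85000 * (μ + 4 * E + 7) ≤ 106 * D := by omega
    have h3 : 85000 * (μ * (μ + 4 * E + 7)) ≤ 106 * (μ * D) := by
      have h4 : 85000 * (μ * (μ + 4 * E + 7)) = μ * (85000 * (μ + 4 * E + 7)) := by ring
      have h5 : 106 * (μ * D) = μ * (106 * D) := by ring
      rw [h4, h5]
      exact Nat.mul_le_mul_left _ h2
    have h4 : μ * D ≤ 2 * (μ * n) := by
      have h5 : μ * D ≤ μ * (2 * n) := Nat.mul_le_mul_left _ hDn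
      have h6 : μ * (2 * n) = 2 * (μ * n) := by ring
      omega
    omega
  · intro off hoff
    omega

end Pool.Agent.OMF.H88
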